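import Pool.Agent.T2H29.LQ.Leep

/-!
# Characteristic two
-/

set_option autoImplicit false

open Module

namespace Pool.Agent.T2H29.LQ

/-- over a field of characteristic two in which every element is a square, every form of dimension
at least three is isotropic -/
theorem isotropic_of_perfect {L : Type} [Field L] (h2 : (2 : L) = 0)
    (hsq : ∀ a : L, ∃ c, c ^ 2 = a) (E : Type) [AddCommGroup E] [Module L E]
    [FiniteDimensional L E] (φ : QuadraticForm L E) (h3 : 3 ≤ finrank L E) :
    ∃ y : E, y ≠ 0 ∧ φ y = 0 := by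
  have h1 : Nontrivial E := Module.nontrivial_of_finrank_pos (R := L) (by omega)
  obtain ⟨x, hx⟩ := exists_ne (0 : E)
  obtain ⟨l, hl⟩ : ∃ l : Module.Dual L E, l x ≠ 0 := by
    by_contra hc
    push Not at hc
    exact hx ((Module.forall_dual_apply_eq_zero_iff L x).1 hc)
  let P : E →ₗ[L] L × L := LinearMap.prod (φ.polarBilin x) l
  have k3 := LinearMap.finrank_range_add_finrank_ker P
  have k4 : finrank L (LinearMap.range P) ≤ 2 := by
    refine (Submodule.finrank_le _).trans ?_
    rw [Module.finrank_prod, Module.finrank_self]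
  have hn1 : Nontrivial (LinearMap.ker P) := Module.nontrivial_of_finrank_pos (R := L) (by omega)
  obtain ⟨y, hy⟩ := exists_ne (0 : LinearMap.ker P)
  have hy0 : (y : E) ≠ 0 := fun h0 => hy (Subtype.ext h0)
  have hyP : P (y : E) = 0 := y.2
  have hy1 : QuadraticMap.polar φ x (y : E) = 0 := congrArg Prod.fst hyP
  have hy2 : l (y : E) = 0 := congrArg Prod.snd hyP
  generalize (y : E) = z at hy0 hy1 hy2
  by_cases hz : φ z = 0
  · exact ⟨z, hy0, hz⟩
  obtain ⟨e, he⟩ := hsq (φ z)
  obtain ⟨c, hc⟩ := hsq (φ x)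
  refine ⟨e • x + c • z, ?_, ?_⟩
  · intro h0
    have h5 := congrArg l h0
    rw [map_add, map_smul, map_smul, hy2, smul_zero, add_zero, map_zero, smul_eq_mul] at h5
    have he0 : e = 0 := (mul_eq_zero.1 h5).resolve_right hl
    apply hz
    rw [← he, he0]
    ring
  · rw [quad_add, hy1, he, hc]
    linear_combination (φ x * φ z) * h2

theorem sq_of_perfect {K L : Type} [Field K] [Field L] [Algebra K L] [FiniteDimensional K L]
    (h2 : (2 : K) = 0) (hsq : ∀ a : K, ∃ c, c ^ 2 = a) (a : L) : ∃ c : L, c ^ 2 = a := by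
  haveI : CharP K 2 := CharTwo.of_one_ne_zero_of_two_eq_zero one_ne_zero h2
  haveI : Fact (Nat.Prime 2) := ⟨Nat.prime_two⟩
  haveI : ExpChar K 2 := ExpChar.prime Nat.prime_two
  haveI : PerfectRing K 2 := PerfectRing.ofSurjective K 2 (fun a => by
    obtain ⟨c, hc⟩ := hsq a
    exact ⟨c, by rw [frobenius_def]; exact hc⟩)
  haveI : PerfectField K := PerfectRing.toPerfectField K 2
  haveI : PerfectField L := Algebra.IsAlgebraic.perfectField (K := K)
  haveI : CharP L 2 := charP_of_injective_algebraMap (algebraMap K L).injective 2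
  haveI : ExpChar L 2 := ExpChar.prime Nat.prime_two
  haveI : PerfectRing L 2 := PerfectField.toPerfectRing 2
  obtain ⟨c, hc⟩ := surjective_frobenius L 2 a
  exact ⟨c, by rw [← frobenius_def]; exact hc⟩

end Pool.Agent.T2H29.LQ
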