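import Pool.Agent.T2H29.LQ.Rep

/-!
# The asymptotic form of the recursion
-/

set_option autoImplicit false

open Module

namespace Pool.Agent.T2H29.LQ

/-- partial sums of the series of the inverse squares -/
noncomputable def H (J : ℕ) : ℝ := ∑ i ∈ Finset.range (J + 1), 1 / (i : ℝ) ^ 2

theorem H_succ (J : ℕ) : H (J + 1) = H J + 1 / ((J : ℝ) + 1) ^ 2 := by
  unfold H
  rw [Finset.sum_range_succ _ (J + 1)]
  push_cast
  rfl

theorem H_tail (J : ℕ) (hJ : 1 ≤ J) : Real.pi ^ 2 / 6 ≤ H J + 1 / J := by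
  refine le_of_tendsto' hasSum_zeta_two.tendsto_sum_nat fun N => ?_
  have h1 : ∑ i ∈ Finset.range N, 1 / (i : ℝ) ^ 2 ≤
      ∑ i ∈ Finset.range (max N J + 1), 1 / (i : ℝ) ^ 2 := by
    refine Finset.sum_le_sum_of_subset_of_nonneg
      (Finset.range_mono ((le_max_left N J).trans (Nat.le_succ _))) fun i _ _ => ?_
    positivity
  have h2 : ∑ i ∈ Finset.range (max N J + 1), 1 / (i : ℝ) ^ 2 =
      H J + ∑ i ∈ Finset.Ioc J (max N J), ((i : ℝ) ^ 2)⁻¹ := by
    unfold H
    have h3 : Finset.range (max N J + 1) = Finset.range (J + 1) ∪ Finset.Ioc J (max N J) := by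
      ext i
      simp only [Finset.mem_range, Finset.mem_union, Finset.mem_Ioc]
      have := le_max_right N J
      omega
    have h4 : Disjoint (Finset.range (J + 1)) (Finset.Ioc J (max N J)) := by
      rw [Finset.disjoint_left]
      intro i hi hi'
      rw [Finset.mem_range] at hi
      rw [Finset.mem_Ioc] at hi'
      omega
    rw [h3, Finset.sum_union h4]
    simp only [one_div]
  have h5 := sum_Ioc_inv_sq_le_sub (α := ℝ) (k := J) (n := max N J) (by omega) (le_max_right N J)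
  have h6 : (0 : ℝ) ≤ ((max N J : ℕ) : ℝ)⁻¹ := by positivity
  rw [h2] at h1
  rw [one_div]
  linarith

/-- the sums of the `1 / (j (j + 1)²)` -/
noncomputable def B (k : ℕ) : ℝ := ∑ j ∈ Finset.range k, 1 / (((j : ℝ) + 1) * ((j : ℝ) + 2) ^ 2)

theorem B_eq (k : ℕ) : B k = 2 - 1 / ((k : ℝ) + 1) - H (k + 1) := by
  induction k with
  | zero =>
    rw [H_succ]
    simp [B, H]
    norm_num
  | succ k ih =>
    have h1 : B (k + 1) = B k + 1 / (((k : ℝ) + 1) * ((k : ℝ) + 2) ^ 2) := Finset.sum_range_succ _ _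
    rw [h1, ih, H_succ (k + 1)]
    have h2 : (k : ℝ) + 1 ≠ 0 := by positivity
    have h3 : (k : ℝ) + 2 ≠ 0 := by positivity
    have h4 : (k : ℝ) + 1 + 1 ≠ 0 := by positivity
    push_cast
    field_simp
    ring

section
variable {K L : Type} [Field K] [Field L] [Algebra K L] [FiniteDimensional K L]

theorem Rep.upto (hsq : ∀ a : K, ∃ c, c ^ 2 = a) (h2 : (2 : K) ≠ 0) (D : ℕ)
    (hD : D < finrank K L) (k : ℕ) : ∀ n, Rep K L (D / (k + 1)) n → ∃ N : ℕ, Rep K L D (n + N) ∧
      (N : ℝ) ≤ D * B k + 3 / 2 * k := by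
  induction k with
  | zero =>
    intro n h
    refine ⟨0, ?_, ?_⟩
    · simpa using h
    · simp [B]
  | succ k ih =>
    intro n h
    set c' := D / (k + 1 + 1) with hc'
    set c := D / (k + 1) with hc
    have h3 : (k + 1) * c < finrank K L := lt_of_le_of_lt (Nat.mul_div_le D (k + 1)) hD
    have hcc : c' ≤ c := Nat.div_le_div_left (Nat.le_succ _) (Nat.succ_pos _)
    set p := (c - c' + (k + 1)) / (k + 2) with hp
    have h4 : c ≤ c' + (k + 1 + 1) * p := by
      have e1 : c - c' ≤ (k + 2) * p := by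
        have e2 : c - c' + (k + 1) < (k + 2) * (p + 1) := by
          rw [hp]
          exact Nat.lt_mul_div_succ _ (Nat.succ_pos _)
        have e3 : (k + 2) * (p + 1) = (k + 2) * p + (k + 2) := by ring
        omega
      have e4 : (k + 1 + 1) * p = (k + 2) * p := rfl
      omega
    have h5 := Rep.phase hsq h2 h p c h3 h4
    obtain ⟨N, hN, hN'⟩ := ih _ h5
    refine ⟨p + N, ?_, ?_⟩
    · rw [← add_assoc]
      exact hN
    · have hk1 : (0 : ℝ) < (k : ℝ) + 1 := by positivity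
      have hk2 : (0 : ℝ) < (k : ℝ) + 2 := by positivity
      have e1 : (p : ℝ) ≤ ((c : ℝ) - c' + (k + 1)) / (k + 2) := by
        have := Nat.cast_div_le (α := ℝ) (m := c - c' + (k + 1)) (n := k + 2)
        rw [← hp] at this
        refine this.trans (le_of_eq ?_)
        push_cast [Nat.cast_sub hcc]
        ring
      have e2 : (c : ℝ) ≤ D / (k + 1) := by
        have := Nat.cast_div_le (α := ℝ) (m := D) (n := k + 1)
        rw [← hc] at this
        refine this.trans (le_of_eq ?_)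
        push_cast
        ring
      have e3 : ((D : ℝ) - (k + 1)) / (k + 2) ≤ c' := by
        have : D < (k + 2) * (c' + 1) := Nat.lt_mul_div_succ _ (Nat.succ_pos _)
        have h6 : (D : ℝ) + 1 ≤ (k + 2) * (c' + 1) := by exact_mod_cast this
        rw [div_le_iff₀ hk2]
        nlinarith
      have e4 : (p : ℝ) ≤ D * (1 / (((k : ℝ) + 1) * ((k : ℝ) + 2) ^ 2)) + 3 / 2 := by
        refine e1.trans ?_
        have e5 : ((c : ℝ) - c' + (k + 1)) / (k + 2) ≤
            (D / (k + 1) - ((D : ℝ) - (k + 1)) / (k + 2) + (k + 1)) / (k + 2) := by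
          gcongr
        refine e5.trans ?_
        have e6 : (D / (k + 1) - ((D : ℝ) - (k + 1)) / (k + 2) + (k + 1)) / (k + 2) =
            D * (1 / (((k : ℝ) + 1) * ((k : ℝ) + 2) ^ 2)) + (k + 1) * (k + 3) / (k + 2) ^ 2 := by
          field_simp
          ring
        rw [e6]
        have e7 : ((k : ℝ) + 1) * (k + 3) / (k + 2) ^ 2 ≤ 3 / 2 := by
          rw [div_le_iff₀ (by positivity)]
          nlinarith
        linarith
      have e8 : B (k + 1) = B k + 1 / (((k : ℝ) + 1) * ((k : ℝ) + 2) ^ 2) :=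
        Finset.sum_range_succ _ _
      rw [e8]
      push_cast
      nlinarith

theorem Rep.asym (hsq : ∀ a : K, ∃ c, c ^ 2 = a) (h2 : (2 : K) ≠ 0) (J : ℕ) (hJ : 1 ≤ J) :
    ∃ n : ℕ, Rep K L (finrank K L) (n + 1) ∧
      (n : ℝ) ≤ (2 - Real.pi ^ 2 / 6 + 1 / (J * (J + 1))) * (finrank K L - 1) + 2 * J := by
  have hd : 0 < finrank K L := Module.finrank_pos
  obtain ⟨k, rfl⟩ : ∃ k, J = k + 1 := ⟨J - 1, by omega⟩
  obtain ⟨D, hD⟩ : ∃ D, finrank K L = D + 1 := ⟨finrank K L - 1, by omega⟩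
  set c := D / (k + 1) with hc
  set p := (c + (k + 1)) / (k + 2) with hp
  have h3 : (k + 1) * c < finrank K L := lt_of_le_of_lt (Nat.mul_div_le D (k + 1)) (by omega)
  have h4 : c ≤ 0 + (k + 1 + 1) * p := by
    have e2 : c + (k + 1) < (k + 2) * (p + 1) := by
      rw [hp]
      exact Nat.lt_mul_div_succ _ (Nat.succ_pos _)
    have e3 : (k + 2) * (p + 1) = (k + 2) * p + (k + 2) := by ring
    have e4 : (k + 1 + 1) * p = (k + 2) * p := rfl
    omega
  have h5 := Rep.phase hsq h2 Rep.zero p c h3 h4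
  obtain ⟨N, hN, hN'⟩ := Rep.upto hsq h2 D (by omega) k _ h5
  have h6 : Rep K L (finrank K L) (1 + p + N + 1) := by
    refine Rep.step hsq h2 (s := 0) (by rw [cost_zero]; exact hd) ?_
    rw [hD, zero_add, Nat.add_sub_cancel]
    exact hN
  refine ⟨1 + p + N, h6, ?_⟩
  have hk1 : (0 : ℝ) < (k : ℝ) + 1 := by positivity
  have hk2 : (0 : ℝ) < (k : ℝ) + 2 := by positivity
  have e1 : (p : ℝ) ≤ ((c : ℝ) + (k + 1)) / (k + 2) := by
    have := Nat.cast_div_le (α := ℝ) (m := c + (k + 1)) (n := k + 2)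
    rw [← hp] at this
    refine this.trans (le_of_eq ?_)
    push_cast
    ring
  have e2 : (c : ℝ) ≤ D / (k + 1) := by
    have := Nat.cast_div_le (α := ℝ) (m := D) (n := k + 1)
    rw [← hc] at this
    refine this.trans (le_of_eq ?_)
    push_cast
    ring
  have e3 : (p : ℝ) ≤ D * (1 / (((k : ℝ) + 1) * (k + 2))) + 1 := by
    refine e1.trans ?_
    have e5 : ((c : ℝ) + (k + 1)) / (k + 2) ≤ (D / (k + 1) + (k + 1)) / (k + 2) := by
      gcongr
    refine e5.trans ?_
    have e6 : ((D : ℝ) / (k + 1) + (k + 1)) / (k + 2) =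
        D * (1 / (((k : ℝ) + 1) * (k + 2))) + (k + 1) / (k + 2) := by
      field_simp
    rw [e6]
    have e7 : ((k : ℝ) + 1) / (k + 2) ≤ 1 := by
      rw [div_le_iff₀ hk2]
      linarith
    linarith
  have e8 : B k + 1 / (((k : ℝ) + 1) * (k + 2)) ≤
      2 - Real.pi ^ 2 / 6 + 1 / (((k : ℝ) + 1) * (k + 2)) := by
    rw [B_eq]
    have e9 := H_tail (k + 1) (by omega)
    push_cast at e9
    linarith
  have hDr : ((finrank K L : ℕ) : ℝ) - 1 = D := by
    rw [hD]
    push_cast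
    ring
  rw [hDr]
  push_cast
  have e10 : ((k : ℝ) + 1 + 1) = k + 2 := by ring
  rw [e10]
  have e11 : (D : ℝ) * (B k + 1 / (((k : ℝ) + 1) * (k + 2))) ≤
      D * (2 - Real.pi ^ 2 / 6 + 1 / (((k : ℝ) + 1) * (k + 2))) :=
    mul_le_mul_of_nonneg_left e8 (Nat.cast_nonneg _)
  nlinarith

end

end Pool.Agent.T2H29.LQ
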