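import Pool.Agent.T2H29.LQ.Leep

/-!
# Chains of vectors on a line, and the recursion for the codimension

`K` is a field of characteristic not two in which every element is a square, `L / K` is finite and
`φ` is a quadratic form over `L`.  Let `T` be a `K`-subspace of `L` of codimension `c` no element of
which is represented by `φ`.  On every `L`-line there are vectors `z₁, …, z_s` with
`b (z_i, z_j) ∈ T + K φ(z₁) + … + K φ(z_{j-1})` for `j < i`, as long as
`c + (c - 1) + … + (c - s + 2) < [L : K]`, and every element of the space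
`T' = T + K φ(z₁) + … + K φ(z_s)`, of dimension `dim T + s`, is modulo `T` a value of `φ` on the line.
-/

set_option autoImplicit false

open Module

namespace Pool.Agent.T2H29.LQ

/-- the number `c + (c - 1) + ... + (c - s + 1)` -/
def cost (c s : ℕ) : ℕ := ∑ q ∈ Finset.range s, (c - q)

theorem cost_zero (c : ℕ) : cost c 0 = 0 := rfl

theorem cost_succ (c s : ℕ) : cost c (s + 1) = cost c s + (c - s) := Finset.sum_range_succ _ _

theorem cost_mono {c c' : ℕ} (h : c ≤ c') (s : ℕ) : cost c s ≤ cost c' s :=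
  Finset.sum_le_sum fun q _ => by omega

theorem cost_le (c s : ℕ) : cost c s ≤ s * c := by
  unfold cost
  refine (Finset.sum_le_card_nsmul _ _ c fun q _ => by omega).trans ?_
  simp

section
variable {K L : Type} [Field K] [Field L] [Algebra K L] [FiniteDimensional K L]
variable {E : Type} [AddCommGroup E] [Module L E] [Module K E] [IsScalarTower K L E]

/-- chains of vectors on the line of `y` -/
structure Chain (φ : QuadraticForm L E) (y : E) (T : Submodule K L) (i : ℕ) (T' : Submodule K L)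
    (W Z : Submodule K E) : Prop where
  le : T ≤ T'
  rank : finrank K T' = finrank K T + i
  Wle : W ≤ (L ∙ y).restrictScalars K
  Zrank : finrank K L ≤ finrank K (Z ⊓ (L ∙ y).restrictScalars K : Submodule K E) +
    cost (finrank K L - finrank K T) i
  Zorth : ∀ z, QuadraticMap.polar φ y z = 0 → z ∈ Z
  sol : ∀ z ∈ Z, ∀ t ∈ T', ∃ w ∈ W, φ (z + w) - φ z - t ∈ T
  disj : ∀ z ∈ Z, z ∈ W → z = 0
  pol : ∀ w ∈ W, ∀ z ∈ Z, QuadraticMap.polar φ w z ∈ T'

theorem polar_smul_right' (φ : QuadraticForm L E) (c : K) (x y : E) :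
    QuadraticMap.polar φ x (c • y) = c • QuadraticMap.polar φ x y := by
  rw [← algebraMap_smul L c y, QuadraticMap.polar_smul_right, algebraMap_smul]

theorem polar_smul_left' (φ : QuadraticForm L E) (c : K) (x y : E) :
    QuadraticMap.polar φ (c • x) y = c • QuadraticMap.polar φ x y := by
  rw [← algebraMap_smul L c x, QuadraticMap.polar_smul_left, algebraMap_smul]

theorem map_smul' (φ : QuadraticForm L E) (c : K) (x : E) : φ (c • x) = (c ^ 2) • φ x := by
  rw [← algebraMap_smul L c x, QuadraticMap.map_smul, ← map_mul, algebraMap_smul, sq]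

theorem chain_step [FiniteDimensional K E] (hsq : ∀ a : K, ∃ c, c ^ 2 = a) (h2 : (2 : K) ≠ 0)
    {φ : QuadraticForm L E} {y : E} {T : Submodule K L} (hno : ∀ x : E, x ≠ 0 → φ x ∉ T) {i : ℕ}
    {T' : Submodule K L} {W Z : Submodule K E} (C : Chain φ y T i T' W Z)
    (hi : cost (finrank K L - finrank K T) i < finrank K L) :
    ∃ (T'' : Submodule K L) (W' Z' : Submodule K E), Chain φ y T (i + 1) T'' W' Z' := by
  have h1 : 0 < finrank K (Z ⊓ (L ∙ y).restrictScalars K : Submodule K E) := by
    have := C.Zrank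
    omega
  have hn := Module.nontrivial_of_finrank_pos h1
  obtain ⟨⟨z0, hz0⟩, hne⟩ := exists_ne (0 : (Z ⊓ (L ∙ y).restrictScalars K : Submodule K E))
  have hz00 : z0 ≠ 0 := fun h0 => hne (Subtype.ext h0)
  have hzZ : z0 ∈ Z := hz0.1
  have hzy : z0 ∈ (L ∙ y) := hz0.2
  have hval : φ z0 ∉ T' := by
    intro hc
    obtain ⟨w, hw, hwT⟩ := C.sol z0 hzZ (-φ z0) (T'.neg_mem hc)
    have e1 : φ (z0 + w) - φ z0 - -φ z0 = φ (z0 + w) := by ring
    rw [e1] at hwT
    have e2 : z0 + w = 0 := by
      by_contra h0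
      exact hno _ h0 hwT
    have e3 : z0 = -w := eq_neg_of_add_eq_zero_left e2
    exact hz00 (C.disj z0 hzZ (by rw [e3]; exact W.neg_mem hw))
  have hφ0 : φ z0 ≠ 0 := fun h0 => hval (by rw [h0]; exact T'.zero_mem)
  -- the linear map `z ↦ b (z0, z)` over `K`
  let P : E →ₗ[K] L := (φ.polarBilin z0).restrictScalars K
  have hP : ∀ z, P z = QuadraticMap.polar φ z0 z := fun z => rfl
  refine ⟨T' ⊔ K ∙ φ z0, W ⊔ K ∙ z0, Z ⊓ T'.comap P, ?_⟩
  constructor
  · exact C.le.trans le_sup_left
  · have e1 : T' ⊓ K ∙ φ z0 = ⊥ := by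
      rw [eq_bot_iff]
      rintro x ⟨hx, hx'⟩
      obtain ⟨a, rfl⟩ := Submodule.mem_span_singleton.1 hx'
      by_cases ha : a = 0
      · rw [ha, zero_smul]
        exact Submodule.zero_mem _
      · exfalso
        apply hval
        have : a⁻¹ • a • φ z0 ∈ T' := T'.smul_mem _ hx
        rwa [smul_smul, inv_mul_cancel₀ ha, one_smul] at this
    have e2 := Submodule.finrank_sup_add_finrank_inf_eq T' (K ∙ φ z0)
    rw [e1, finrank_bot, finrank_span_singleton hφ0, C.rank] at e2
    omega
  · refine sup_le C.Wle ?_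
    rw [Submodule.span_singleton_le_iff_mem]
    exact hzy
  · -- the dimension
    have k1 := C.Zrank
    rw [cost_succ]
    let A : Submodule K E := Z ⊓ (L ∙ y).restrictScalars K
    let g : A →ₗ[K] (L ⧸ T') := T'.mkQ ∘ₗ P ∘ₗ A.subtype
    have k2 := LinearMap.finrank_range_add_finrank_ker g
    have k3 : finrank K (LinearMap.range g) ≤ finrank K (L ⧸ T') := Submodule.finrank_le _
    have k4 := Submodule.finrank_quotient_add_finrank T'
    have k5 : finrank K (LinearMap.ker g) =
        finrank K (Submodule.map A.subtype (LinearMap.ker g)) :=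
      (LinearEquiv.finrank_eq (Submodule.equivMapOfInjective _ A.injective_subtype _))
    have k6 : finrank K (Submodule.map A.subtype (LinearMap.ker g)) ≤
        finrank K (Z ⊓ T'.comap P ⊓ (L ∙ y).restrictScalars K : Submodule K E) := by
      refine Submodule.finrank_mono ?_
      rintro x ⟨⟨a, ha⟩, hag, rfl⟩
      have h3 : T'.mkQ (P a) = 0 := hag
      rw [Submodule.mkQ_apply, Submodule.Quotient.mk_eq_zero] at h3
      exact ⟨⟨ha.1, h3⟩, ha.2⟩
    have k7 := C.rank
    have k8 : finrank K (↥A) = finrank K (Z ⊓ (L ∙ y).restrictScalars K : Submodule K E) := rfl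
    omega
  · intro z hz
    refine ⟨C.Zorth z hz, ?_⟩
    change QuadraticMap.polar φ z0 z ∈ T'
    obtain ⟨l, rfl⟩ := Submodule.mem_span_singleton.1 hzy
    rw [QuadraticMap.polar_smul_left, hz, smul_zero]
    exact T'.zero_mem
  · rintro z ⟨hz, hz'⟩ t ht
    change QuadraticMap.polar φ z0 z ∈ T' at hz'
    obtain ⟨t', ht', v, hv, rfl⟩ := Submodule.mem_sup.1 ht
    obtain ⟨x, rfl⟩ := Submodule.mem_span_singleton.1 hv
    obtain ⟨c, hc⟩ := hsq x
    have hz1 : z + c • z0 ∈ Z := Z.add_mem hz (Z.smul_mem _ hzZ)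
    have e1 : φ (z + c • z0) = φ z + x • φ z0 + c • QuadraticMap.polar φ z0 z := by
      have : φ (z + c • z0) = φ z + φ (c • z0) + QuadraticMap.polar φ z (c • z0) := by
        unfold QuadraticMap.polar
        ring
      rw [this, map_smul', hc, polar_smul_right', QuadraticMap.polar_comm]
    obtain ⟨w, hw, hwT⟩ := C.sol _ hz1 (t' - c • QuadraticMap.polar φ z0 z)
      (T'.sub_mem ht' (T'.smul_mem _ hz'))
    refine ⟨w + c • z0, Submodule.add_mem_sup hw (Submodule.smul_mem _ _
      (Submodule.mem_span_singleton_self _)), ?_⟩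
    have e2 : z + (w + c • z0) = z + c • z0 + w := by abel
    rw [e2]
    rw [e1] at hwT
    convert hwT using 1
    ring
  · rintro z ⟨hz, hz'⟩ hzW
    change QuadraticMap.polar φ z0 z ∈ T' at hz'
    obtain ⟨w, hw, v, hv, hwv⟩ := Submodule.mem_sup.1 hzW
    obtain ⟨x, rfl⟩ := Submodule.mem_span_singleton.1 hv
    have e1 : QuadraticMap.polar φ z0 w ∈ T' := by
      rw [QuadraticMap.polar_comm]
      exact C.pol w hw z0 hzZ
    have e2 : x = 0 := by
      by_contra hx
      apply hval
      rw [← hwv, QuadraticMap.polar_add_right, polar_smul_right', QuadraticMap.polar_self] at hz'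
      have e3 : x • 2 • φ z0 ∈ T' := (Submodule.add_mem_iff_right T' e1).1 hz'
      have e4 : x⁻¹ • x • 2 • φ z0 ∈ T' := T'.smul_mem _ e3
      rw [smul_smul, inv_mul_cancel₀ hx, one_smul] at e4
      have e5 : (2 : K)⁻¹ • 2 • φ z0 ∈ T' := T'.smul_mem _ e4
      have e6 : (2 : K)⁻¹ • 2 • φ z0 = φ z0 := by
        rw [two_nsmul, ← two_smul K, smul_smul, inv_mul_cancel₀ h2, one_smul]
      rwa [e6] at e5
    rw [e2, zero_smul, add_zero] at hwv
    exact C.disj z hz (hwv ▸ hw)
  · intro w hw z hz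
    obtain ⟨hz, hz'⟩ := hz
    change QuadraticMap.polar φ z0 z ∈ T' at hz'
    obtain ⟨w0, hw0, v, hv, rfl⟩ := Submodule.mem_sup.1 hw
    obtain ⟨x, rfl⟩ := Submodule.mem_span_singleton.1 hv
    rw [QuadraticMap.polar_add_left, polar_smul_left']
    exact Submodule.mem_sup_left (T'.add_mem (C.pol w0 hw0 z hz) (T'.smul_mem _ hz'))

end

end Pool.Agent.T2H29.LQ
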