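import Mathlib

/-!
# Systems of quadratic forms over a field all of whose binary quadratic forms are isotropic
-/

set_option autoImplicit false

open Module

namespace Pool.Agent.T2H29.LQ

/-- every binary quadratic form over `K` is isotropic -/
def Bin (K : Type) [Field K] : Prop :=
  ∀ A P B : K, ∃ a b : K, ¬ (a = 0 ∧ b = 0) ∧ A * a ^ 2 + P * (a * b) + B * b ^ 2 = 0

theorem Bin.sq {K : Type} [Field K] (h : Bin K) (a : K) : ∃ c, c ^ 2 = a := by
  obtain ⟨x, y, hxy, h1⟩ := h 1 0 (-a)
  have hy : y ≠ 0 := by
    rintro rfl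
    apply hxy
    refine ⟨?_, rfl⟩
    have : x ^ 2 = 0 := by linear_combination h1
    exact pow_eq_zero_iff two_ne_zero |>.1 this
  refine ⟨x / y, ?_⟩
  field_simp
  linear_combination h1

theorem quad_add {R V : Type} [CommRing R] [AddCommGroup V] [Module R V] (Q : QuadraticForm R V)
    (a b : R) (x y : V) : Q (a • x + b • y) =
      Q x * a ^ 2 + QuadraticMap.polar Q x y * (a * b) + Q y * b ^ 2 := by
  have h1 : Q (a • x + b • y) = Q (a • x) + Q (b • y) + QuadraticMap.polar Q (a • x) (b • y) := by
    unfold QuadraticMap.polar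
    ring
  rw [h1, QuadraticMap.map_smul, QuadraticMap.map_smul,
    QuadraticMap.polar_smul_left, QuadraticMap.polar_smul_right]
  simp only [smul_eq_mul]
  ring

/-- Leep's bound -/
theorem leep {K : Type} [Field K] (h : Bin K) (r : ℕ) : ∀ (V : Type) [AddCommGroup V] [Module K V]
    [FiniteDimensional K V] (q : Fin r → QuadraticForm K V), r * (r + 1) < 2 * finrank K V →
      ∃ v : V, v ≠ 0 ∧ ∀ i, q i v = 0 := by
  induction r with
  | zero =>
    intro V _ _ _ q hr
    have : 0 < finrank K V := by omega
    have hn := Module.nontrivial_of_finrank_pos this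
    obtain ⟨v, hv⟩ := exists_ne (0 : V)
    exact ⟨v, hv, fun i => i.elim0⟩
  | succ r ih =>
    intro V _ _ _ q hr
    have hr0 : r * (r + 1) < 2 * finrank K V := by nlinarith
    obtain ⟨v, hv, hqv⟩ := ih V (fun i => q i.castSucc) hr0
    obtain ⟨l, hl⟩ : ∃ l : Module.Dual K V, l v ≠ 0 := by
      by_contra hc
      push Not at hc
      exact hv ((Module.forall_dual_apply_eq_zero_iff K v).1 hc)
    let T : V →ₗ[K] (Fin r → K) × K :=
      LinearMap.prod (LinearMap.pi fun i => (q i.castSucc).polarBilin v) l
    have h1 : finrank K (LinearMap.range T) ≤ r + 1 := by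
      refine (Submodule.finrank_le _).trans ?_
      rw [Module.finrank_prod, Module.finrank_fin_fun, Module.finrank_self]
    have h2 := LinearMap.finrank_range_add_finrank_ker T
    have h3 : r * (r + 1) < 2 * finrank K (LinearMap.ker T) := by
      have : (r + 1) * (r + 1 + 1) = r * (r + 1) + 2 * (r + 1) := by ring
      omega
    obtain ⟨w, hw, hqw⟩ := ih (LinearMap.ker T)
      (fun i => (q i.castSucc).comp (LinearMap.ker T).subtype) h3
    have hw0 : (w : V) ≠ 0 := fun h0 => hw (Subtype.ext h0)
    have hT : T (w : V) = 0 := w.2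
    have hT1 : ∀ i : Fin r, QuadraticMap.polar (q i.castSucc) v (w : V) = 0 := by
      intro i
      have := congrFun (congrArg Prod.fst hT) i
      exact this
    have hT2 : l (w : V) = 0 := congrArg Prod.snd hT
    obtain ⟨a, b, hab, h4⟩ := h (q (Fin.last r) v) (QuadraticMap.polar (q (Fin.last r)) v (w : V))
      (q (Fin.last r) (w : V))
    refine ⟨a • v + b • (w : V), ?_, ?_⟩
    · intro h0
      have h5 := congrArg l h0
      rw [map_add, map_smul, map_smul, hT2, smul_zero, add_zero, map_zero, smul_eq_mul] at h5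
      have ha : a = 0 := (mul_eq_zero.1 h5).resolve_right hl
      rw [ha, zero_smul, zero_add] at h0
      exact hab ⟨ha, (smul_eq_zero.1 h0).resolve_right hw0⟩
    · intro i
      rw [quad_add]
      refine Fin.lastCases ?_ (fun j => ?_) i
      · exact h4
      · have e1 : q j.castSucc v = 0 := hqv j
        have e2 : q j.castSucc (w : V) = 0 := hqw j
        rw [e1, e2, hT1 j]
        ring

end Pool.Agent.T2H29.LQ
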