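import Pool.Agent.T2H29.LQ.Chain

/-!
# The recursion
-/

set_option autoImplicit false

open Module

namespace Pool.Agent.T2H29.LQ

/-- every quadratic form of dimension at least `n` over `L` represents a value in every `K`-subspace
of `L` of codimension at most `c` -/
def Rep (K L : Type) [Field K] [Field L] [Algebra K L] (c n : ℕ) : Prop :=
  ∀ (E : Type) [AddCommGroup E] [Module L E] [Module K E] [IsScalarTower K L E]
    [FiniteDimensional L E] (φ : QuadraticForm L E) (T : Submodule K L),
    finrank K L ≤ finrank K T + c → n ≤ finrank L E → ∃ y : E, y ≠ 0 ∧ φ y ∈ T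

section
variable {K L : Type} [Field K] [Field L] [Algebra K L] [FiniteDimensional K L]

theorem Rep.zero : Rep K L 0 1 := by
  intro E _ _ _ _ _ φ T hT hn
  have h1 : Nontrivial E := Module.nontrivial_of_finrank_pos (R := L) (by omega)
  obtain ⟨y, hy⟩ := exists_ne (0 : E)
  have h2 : T = ⊤ := Submodule.eq_top_of_finrank_eq (le_antisymm (Submodule.finrank_le _) (by omega))
  exact ⟨y, hy, h2 ▸ Submodule.mem_top⟩

omit [FiniteDimensional K L] in
theorem Rep.mono {c c' n n' : ℕ} (h : Rep K L c n) (hc : c' ≤ c) (hn : n ≤ n') : Rep K L c' n' := by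
  intro E _ _ _ _ _ φ T hT hn'
  exact h E φ T (by omega) (by omega)

theorem exists_chain {E : Type} [AddCommGroup E] [Module L E] [Module K E] [IsScalarTower K L E]
    [FiniteDimensional K E] (hsq : ∀ a : K, ∃ c, c ^ 2 = a) (h2 : (2 : K) ≠ 0)
    {φ : QuadraticForm L E} {y : E} (hy : y ≠ 0) {T : Submodule K L}
    (hno : ∀ x : E, x ≠ 0 → φ x ∉ T) (s : ℕ)
    (hs : cost (finrank K L - finrank K T) s < finrank K L) :
    ∃ (T' : Submodule K L) (W Z : Submodule K E), Chain φ y T (s + 1) T' W Z := by
  have h0 : Chain φ y T 0 T ⊥ ⊤ := by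
    constructor
    · exact le_rfl
    · rfl
    · exact bot_le
    · rw [cost_zero, add_zero, top_inf_eq]
      let g : L →ₗ[K] ((L ∙ y).restrictScalars K : Submodule K E) :=
        { toFun := fun l => ⟨l • y, Submodule.smul_mem _ _ (Submodule.mem_span_singleton_self _)⟩
          map_add' := fun a b => Subtype.ext (add_smul a b y)
          map_smul' := fun c a => Subtype.ext (smul_assoc c a y) }
      refine LinearMap.finrank_le_finrank_of_injective (f := g) ?_
      intro a b hab
      have h3 : a • y = b • y := congrArg Subtype.val hab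
      have h4 : (a - b) • y = 0 := by rw [sub_smul, h3, sub_self]
      exact sub_eq_zero.1 ((smul_eq_zero.1 h4).resolve_right hy)
    · intro z _
      exact Submodule.mem_top
    · intro z _ t ht
      refine ⟨0, Submodule.zero_mem _, ?_⟩
      rw [add_zero, sub_self, zero_sub]
      exact T.neg_mem ht
    · intro z _ hz
      exact (Submodule.mem_bot K).1 hz
    · intro w hw z _
      rw [(Submodule.mem_bot K).1 hw]
      have : QuadraticMap.polar φ 0 z = 0 := by simp [QuadraticMap.polar]
      rw [this]
      exact T.zero_mem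
  have key : ∀ i, i ≤ s → ∃ (T' : Submodule K L) (W Z : Submodule K E),
      Chain φ y T (i + 1) T' W Z := by
    intro i
    induction i with
    | zero =>
      intro _
      refine chain_step hsq h2 hno h0 ?_
      rw [cost_zero]
      exact Module.finrank_pos
    | succ i ih =>
      intro hi
      obtain ⟨T', W, Z, C⟩ := ih (by omega)
      refine chain_step hsq h2 hno C (lt_of_le_of_lt ?_ hs)
      exact Finset.sum_le_sum_of_subset (Finset.range_mono hi)
  exact key s le_rfl

theorem Rep.last (hsq : ∀ a : K, ∃ c, c ^ 2 = a) (h2 : (2 : K) ≠ 0) {c : ℕ}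
    (hc : cost c c < finrank K L) : Rep K L c 1 := by
  intro E _ _ _ _ _ φ T hT hn
  by_contra hcon
  push Not at hcon
  have hE : FiniteDimensional K E := Module.Finite.trans L E
  have h1 : Nontrivial E := Module.nontrivial_of_finrank_pos (R := L) (by omega)
  obtain ⟨y, hy⟩ := exists_ne (0 : E)
  have hle : finrank K L - finrank K T ≤ c := by omega
  have hcost : cost (finrank K L - finrank K T) (finrank K L - finrank K T) < finrank K L :=
    lt_of_le_of_lt ((cost_mono hle _).trans
      (Finset.sum_le_sum_of_subset (Finset.range_mono hle))) hc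
  obtain ⟨T', W, Z, C⟩ := exists_chain hsq h2 hy hcon _ hcost
  have h3 := C.rank
  have h4 : finrank K T' ≤ finrank K L := Submodule.finrank_le _
  omega

theorem Rep.step (hsq : ∀ a : K, ∃ c, c ^ 2 = a) (h2 : (2 : K) ≠ 0) {c s n : ℕ}
    (hs : cost c s < finrank K L) (h : Rep K L (c - (s + 1)) n) : Rep K L c (n + 1) := by
  intro E _ _ _ _ _ φ T hT hn
  by_contra hcon
  push Not at hcon
  have hE : FiniteDimensional K E := Module.Finite.trans L E
  have h1 : Nontrivial E := Module.nontrivial_of_finrank_pos (R := L) (by omega)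
  obtain ⟨y, hy⟩ := exists_ne (0 : E)
  have hle : finrank K L - finrank K T ≤ c := by omega
  obtain ⟨T', W, Z, C⟩ := exists_chain hsq h2 hy hcon s (lt_of_le_of_lt (cost_mono hle _) hs)
  have k1 := LinearMap.finrank_range_add_finrank_ker (φ.polarBilin y)
  have k2 : finrank L (LinearMap.range (φ.polarBilin y)) ≤ 1 := by
    refine (Submodule.finrank_le _).trans ?_
    rw [Module.finrank_self]
  have k3 := C.rank
  obtain ⟨y', hy', hyT⟩ := h (LinearMap.ker (φ.polarBilin y))
    (φ.comp (LinearMap.ker (φ.polarBilin y)).subtype) T' (by omega) (by omega)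
  have hy0 : (y' : E) ≠ 0 := fun h0 => hy' (Subtype.ext h0)
  have hyP : QuadraticMap.polar φ y (y' : E) = 0 := y'.2
  have hyT' : φ (y' : E) ∈ T' := hyT
  obtain ⟨w, hw, hwT⟩ := C.sol _ (C.Zorth _ hyP) _ (T'.neg_mem hyT')
  have e1 : φ ((y' : E) + w) - φ (y' : E) - -φ (y' : E) = φ ((y' : E) + w) := by ring
  rw [e1] at hwT
  have e2 : (y' : E) + w = 0 := by
    by_contra h0
    exact hcon _ h0 hwT
  have e3 : (y' : E) = -w := eq_neg_of_add_eq_zero_left e2
  exact hy0 (C.disj _ (C.Zorth _ hyP) (by rw [e3]; exact W.neg_mem hw))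

end

/-- the number by which the codimension drops -/
def gain (d c : ℕ) : ℕ := Nat.findGreatest (fun s => cost c s < d) c + 1

/-- the number of steps the codimension stays nonnegative -/
def steps (d c : ℕ) : ℕ :=
  if h : c < gain d c then 0 else steps d (c - gain d c) + 1
termination_by c
decreasing_by
  have : 0 < gain d c := Nat.succ_pos _
  omega

theorem steps_of_lt {d c : ℕ} (h : c < gain d c) : steps d c = 0 := by
  rw [steps, dif_pos h]

theorem steps_of_le {d c : ℕ} (h : gain d c ≤ c) : steps d c = steps d (c - gain d c) + 1 := by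
  rw [steps, dif_neg (not_lt.2 h)]

section
variable {K L : Type} [Field K] [Field L] [Algebra K L] [FiniteDimensional K L]

theorem Rep.steps (hsq : ∀ a : K, ∃ c, c ^ 2 = a) (h2 : (2 : K) ≠ 0) (c : ℕ) :
    Rep K L c (steps (finrank K L) c + 1) := by
  have hd : 0 < finrank K L := Module.finrank_pos
  induction c using Nat.strong_induction_on with
  | _ c ih =>
    have hf : cost c (Nat.findGreatest (fun s => cost c s < finrank K L) c) < finrank K L := by
      have := Nat.findGreatest_spec (P := fun s => cost c s < finrank K L) (Nat.zero_le c)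
        (by show cost c 0 < _; rw [cost_zero]; exact hd)
      exact this
    by_cases hc : c < gain (finrank K L) c
    · rw [steps_of_lt hc]
      have h3 : Nat.findGreatest (fun s => cost c s < finrank K L) c = c := by
        have := Nat.findGreatest_le (P := fun s => cost c s < finrank K L) c
        unfold gain at hc
        omega
      rw [h3] at hf
      exact Rep.last hsq h2 hf
    · have hc' := not_lt.1 hc
      rw [steps_of_le hc']
      have hg : 0 < gain (finrank K L) c := Nat.succ_pos _
      exact Rep.step hsq h2 hf (ih _ (by omega))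

theorem Rep.phase (hsq : ∀ a : K, ∃ c, c ^ 2 = a) (h2 : (2 : K) ≠ 0) {j c' n : ℕ}
    (h : Rep K L c' n) (p : ℕ) : ∀ c, j * c < finrank K L → c ≤ c' + (j + 1) * p →
      Rep K L c (n + p) := by
  induction p with
  | zero =>
    intro c _ hcp
    exact h.mono (by simpa using hcp) (by omega)
  | succ p ih =>
    intro c hc hcp
    have h3 : Rep K L (c - (j + 1)) (n + p) := by
      refine ih _ (lt_of_le_of_lt (Nat.mul_le_mul_left _ (by omega)) hc) ?_
      have : (j + 1) * (p + 1) = (j + 1) * p + (j + 1) := by ring
      omega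
    exact Rep.step hsq h2 (lt_of_le_of_lt (cost_le c j) hc) h3

end

end Pool.Agent.T2H29.LQ
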